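import Pool.Agent.AZ97.D

/-!
MP_f3d5fe_al, Q1: an explicit function bounding the order of a nonabelian `p`-group by the average
number of zeros in its character table, the exact reason why it must blow up, and its necessity.
-/

set_option autoImplicit false

namespace Pool.Agent.Results.MP_f3d5fe_al.ExplicitBoundAndBlowUp

/-- `χ` is an irreducible complex character of `G`: the character of a finite-dimensional
irreducible complex representation. -/
def IsIrrChar {G : Type} [Group G] (χ : G → ℂ) : Prop :=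
  ∃ (V : Type) (_ : AddCommGroup V) (_ : Module ℂ V) (_ : FiniteDimensional ℂ V)
    (ρ : Representation ℂ G V), ρ.IsIrreducible ∧ χ = ρ.character

/-- `z(G)`: the number of pairs `(χ, K)` of an irreducible character and a conjugacy class with
`χ = 0` on `K`. -/
noncomputable def numZeros (G : Type) [Group G] : ℕ :=
  Nat.card {x : (G → ℂ) × ConjClasses G //
    IsIrrChar x.1 ∧ ∀ g : G, ConjClasses.mk g = x.2 → x.1 g = 0}

/-- `anz(G) = z(G) / k(G)`. -/
noncomputable def anz (G : Type) [Group G] : ℝ :=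
  (numZeros G : ℝ) / (Nat.card (ConjClasses G) : ℝ)

/-- `k(G) - |G : G'|`, the number of nonlinear irreducible characters. -/
noncomputable def nonlin (G : Type) [Group G] : ℕ :=
  Nat.card (ConjClasses G) - (commutator G).index

open Pool.Agent.Q18.Anz Pool.Agent.Helper884.IC in
theorem numZeros_eq (G : Type) [Group G] [Fintype G] : numZeros G = zz G := by
  classical
  unfold numZeros zz
  have h1 : Nat.card {x : (G → ℂ) × ConjClasses G //
      IsIrrChar x.1 ∧ ∀ g : G, ConjClasses.mk g = x.2 → x.1 g = 0} =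
      (((Irr G) ×ˢ (Finset.univ : Finset (ConjClasses G))).filter
        (fun x => ∀ g : G, ConjClasses.mk g = x.2 → x.1 g = 0)).card := by
    apply Nat.subtype_card
    intro x
    rw [Finset.mem_filter, Finset.mem_product, mem_Irr]
    constructor
    · rintro ⟨⟨h1, -⟩, h2⟩
      exact ⟨h1, h2⟩
    · rintro ⟨h1, h2⟩
      exact ⟨⟨h1, Finset.mem_univ _⟩, h2⟩
  rw [h1, Finset.card_filter, Finset.sum_product_right]
  apply Finset.sum_congr rfl
  intro K _
  rw [← Finset.card_filter]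

open Pool.Agent.Q18.Anz in
theorem kk_eq (G : Type) [Group G] [Fintype G] : kk G = Nat.card (ConjClasses G) :=
  Pool.Agent.Q18.Anz.card_irr (G := G)

open Pool.Agent.AZ97 in
theorem az_eq (G : Type) [Group G] [Fintype G] : az G = anz G := by
  unfold az anz
  rw [numZeros_eq, kk_eq]

/-- **Result.**
(1) Let `G` be a nonabelian `p`-group, `a = anz(G)` and let `N` be the number of its nonlinear
irreducible characters. Then `|G| ≤ (4a)^(24a+1)`, or `a < N ≤ 4a` and `|G| (N - a) ≤ 2 N² 2^N`.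
In all cases `|G| (⌊a⌋ + 1 - a) ≤ (4a+4)^(24a+3)`.
(2) For every prime `p` and every `t` there are arbitrarily large nonabelian `p`-groups `G` with
`a = anz(G) < p^t (p-1)` and `|G| (p^t (p-1) - a) ≤ 2 p (p^t (p-1))²`.
(3) So every function `f` as in Q1 is unbounded on every left neighbourhood of each of the numbers
`p^t (p-1)`. -/
theorem result :
    (∀ p : ℕ, p.Prime → ∀ (G : Type) [Group G] [Finite G], IsPGroup p G →
      (∃ x y : G, x * y ≠ y * x) →
      ((Nat.card G : ℝ) ≤ (4 * anz G) ^ (24 * anz G + 1) ∨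
        (anz G < nonlin G ∧ (nonlin G : ℝ) ≤ 4 * anz G ∧
          (Nat.card G : ℝ) * (nonlin G - anz G) ≤ 2 * (nonlin G : ℝ) ^ 2 * 2 ^ nonlin G)) ∧
      (Nat.card G : ℝ) * (⌊anz G⌋₊ + 1 - anz G) ≤ (4 * anz G + 4) ^ (24 * anz G + 3)) ∧
    (∀ p t M : ℕ, p.Prime → ∃ (G : Type) (_ : Group G) (_ : Finite G), IsPGroup p G ∧
      (∃ x y : G, x * y ≠ y * x) ∧ M ≤ Nat.card G ∧ anz G < (p : ℝ) ^ t * (p - 1) ∧
      (Nat.card G : ℝ) * ((p : ℝ) ^ t * (p - 1) - anz G) ≤
        2 * p * ((p : ℝ) ^ t * (p - 1)) ^ 2) ∧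
    (∀ f : ℝ → ℝ, (∀ p : ℕ, p.Prime → ∀ (G : Type) [Group G] [Finite G], IsPGroup p G →
        (∃ x y : G, x * y ≠ y * x) → (Nat.card G : ℝ) ≤ f (anz G)) →
      ∀ p t : ℕ, p.Prime → ∀ ε : ℝ, 0 < ε → ∀ B : ℝ, ∃ a : ℝ,
        (p : ℝ) ^ t * (p - 1) - ε < a ∧ a < (p : ℝ) ^ t * (p - 1) ∧ B ≤ f a) := by
  have hblow : ∀ p t M : ℕ, p.Prime → ∃ (G : Type) (_ : Group G) (_ : Finite G), IsPGroup p G ∧
      (∃ x y : G, x * y ≠ y * x) ∧ M ≤ Nat.card G ∧ anz G < (p : ℝ) ^ t * (p - 1) ∧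
      (Nat.card G : ℝ) * ((p : ℝ) ^ t * (p - 1) - anz G) ≤
        2 * p * ((p : ℝ) ^ t * (p - 1)) ^ 2 := by
    intro p t M hp
    obtain ⟨G, i1, i2, h1, h2, h3, h4, h5⟩ := Pool.Agent.AZ97.blow hp t M
    rw [az_eq] at h4 h5
    exact ⟨G, i1, inferInstance, h1, h2, h3, h4, h5⟩
  refine ⟨?_, hblow, ?_⟩
  · intro p hp G _ _ hG hn
    have : Fintype G := Fintype.ofFinite G
    have h1 := Pool.Agent.AZ97.main hp hG hn
    have h2 := Pool.Agent.AZ97.main2 hp hG hn
    rw [az_eq, kk_eq] at h1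
    rw [az_eq] at h2
    exact ⟨h1, h2⟩
  · intro f hf p t hp ε hε B
    have hp1 : (1 : ℝ) < p := by exact_mod_cast hp.one_lt
    set N : ℝ := (p : ℝ) ^ t * (p - 1) with hN
    obtain ⟨M, hM⟩ := exists_nat_gt (max B (2 * p * N ^ 2 / ε))
    obtain ⟨G, i1, i2, h1, h2, h3, h4, h5⟩ := hblow p t M hp
    have hM1 : B < M := lt_of_le_of_lt (le_max_left _ _) hM
    have hM2 : 2 * p * N ^ 2 / ε < M := lt_of_le_of_lt (le_max_right _ _) hM
    have h3' : (M : ℝ) ≤ Nat.card G := by exact_mod_cast h3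
    refine ⟨anz G, ?_, h4, ?_⟩
    · have hMpos : (0 : ℝ) < Nat.card G := by exact_mod_cast Nat.card_pos
      rw [div_lt_iff₀ hε] at hM2
      have h6 : (Nat.card G : ℝ) * (N - anz G) < Nat.card G * ε := by
        calc _ ≤ 2 * p * N ^ 2 := h5
          _ < M * ε := hM2
          _ ≤ _ := mul_le_mul_of_nonneg_right h3' hε.le
      have h7 : N - anz G < ε := lt_of_mul_lt_mul_left h6 hMpos.le
      linarith
    · have := hf p hp G h1 h2
      linarith

end Pool.Agent.Results.MP_f3d5fe_al.ExplicitBoundAndBlowUp
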